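import Pool.Agent.H92.KST.Basic

/-!
# Board kst_modules: row CRT, approximation at finitely many points
-/

set_option autoImplicit false

universe u

namespace Pool.Agent.H36.KST

open Pool.Agent.H92.KST

/-- a prime containing the intersection of finitely many ideals contains one of them -/
theorem sInf_le_prime {R : Type u} [CommRing R] {T : Set (Ideal R)} (hfin : T.Finite)
    {P : Ideal R} (hP : P.IsPrime) (h : sInf T ≤ P) : ∃ q ∈ T, q ≤ P := by
  classical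
  rw [← hfin.coe_toFinset, ← Finset.inf_id_eq_sInf, hP.inf_le'] at h
  obtain ⟨q, hq, hle⟩ := h
  exact ⟨q, hfin.mem_toFinset.1 hq, hle⟩

theorem pow_sInf_not_le_sig {R : Type u} [CommRing R] (S : Sit R) (y : S.Y)
    (k : ℕ) {e : Ideal R} (he : e ∈ S.Sig) : ¬ (sInf (S.T y)) ^ k ≤ e := by
  intro h
  obtain ⟨q, hq, hle⟩ := sInf_le_prime (S.fin y) he.1 (he.1.le_of_pow_le h)
  have h1 := Ideal.height_mono hle
  rw [S.ht y q hq, he.2.1] at h1
  norm_num at h1

theorem pow_sInf_not_le {R : Type u} [CommRing R] [IsNoetherianRing R] (S : Sit R) {y y' : S.Y}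
    (hne : y ≠ y') (k : ℕ) {e : Ideal R} (he : e ∈ S.T y) : ¬ (sInf (S.T y')) ^ k ≤ e := by
  intro h
  have hp := S.pr y e he
  obtain ⟨q, hq, hle⟩ := sInf_le_prime (S.fin y') hp (hp.le_of_pow_le h)
  have hq' := S.pr y' q hq
  have h1 : q = e := Ideal.eq_of_le_of_height_le q hle (by rw [S.ht y e he, S.ht y' q hq])
  subst h1
  exact Set.disjoint_left.1 (S.dj y y' hne) he hq

section
variable {R F : Type u} [CommRing R] [IsDomain R] [Field F] [Algebra R F] [IsFractionRing R F]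

omit [IsDomain R] in
theorem inJ_div {T : Set (Ideal R)} {k : ℕ} {s r : R} (hs : s ≠ 0) (hq : ∀ q ∈ T, s ∉ q)
    (hr : r ∈ (sInf T) ^ k) : InJ T k (algebraMap R F r / algebraMap R F s) := by
  refine ⟨s, r, hs, hq, hr, ?_⟩
  have : algebraMap R F s ≠ 0 := by
    rw [Ne, FaithfulSMul.algebraMap_eq_zero_iff]
    exact hs
  field_simp

omit [IsFractionRing R F] in
theorem inJ_alg {T : Set (Ideal R)} (hT : ∀ q ∈ T, q.IsPrime) {k : ℕ} {r : R}
    (hr : r ∈ (sInf T) ^ k) : InJ T k (algebraMap R F r) :=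
  ⟨1, r, one_ne_zero, fun q hq h => (hT q hq).ne_top ((Ideal.eq_top_iff_one q).2 h), hr, by simp⟩

omit [IsFractionRing R F] in
theorem inJ_sum {T : Set (Ideal R)} (hT : ∀ q ∈ T, q.IsPrime) {k : ℕ} {ι : Type*}
    (s : Finset ι) {f : ι → F} (h : ∀ i ∈ s, InJ T k (f i)) : InJ T k (∑ i ∈ s, f i) := by
  classical
  induction s using Finset.induction_on with
  | empty =>
    have := inJ_alg (F := F) hT (k := k) (zero_mem ((sInf T) ^ k))
    simpa using this
  | insert a s ha ih =>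
    rw [Finset.sum_insert ha]
    exact (h a (Finset.mem_insert_self a s)).add hT
      (ih fun i hi => h i (Finset.mem_insert_of_mem hi))

end

theorem mem_of_mem_pow_sInf {R : Type u} [CommRing R] {T : Set (Ideal R)} {k : ℕ} {r : R}
    (hr : r ∈ (sInf T) ^ (k + 1)) {q : Ideal R} (hq : q ∈ T) : r ∈ q := by
  have h1 : (sInf T) ^ (k + 1) ≤ sInf T := Ideal.pow_le_self (by omega)
  exact (Ideal.mem_sInf.1 (h1 hr)) hq

theorem pf_CRT (hAV : T_AV.{u}) (hFIN : T_FIN.{u}) : T_CRT.{u} := by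
  classical
  intro R F _ _ _ _ _ _ S E hE r hr k0
  -- enlarge the exponent
  suffices h : ∃ ρ : F, ρ ≠ 0 ∧ InL ({q | ∃ y ∈ E, q ∈ S.T y} ∪ S.Sig) ρ ∧
      ∀ y ∈ E, InJ (S.T y) (k0 + 1) (ρ - r y) by
    obtain ⟨ρ, h1, h2, h3⟩ := h
    exact ⟨ρ, h1, h2, fun y hy => (h3 y hy).mono (by omega)⟩
  obtain ⟨-, -, hF3⟩ := hFIN R F
  obtain ⟨hSig, -, -⟩ := hF3 S
  have hTE : {q | ∃ y ∈ E, q ∈ S.T y}.Finite := by
    refine (hE.biUnion fun y _ => S.fin y).subset ?_
    rintro q ⟨y, hy, hq⟩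
    exact Set.mem_biUnion hy hq
  have hTEp : ∀ q ∈ {q | ∃ y ∈ E, q ∈ S.T y}, q.IsPrime := by
    rintro q ⟨y, _, hq⟩
    exact S.pr y q hq
  have hallp : ∀ q ∈ {q | ∃ y ∈ E, q ∈ S.T y} ∪ S.Sig, q.IsPrime := by
    rintro q (hq | hq)
    · exact hTEp q hq
    · exact hq.1
  -- step 1
  have step1 : ∀ y ∈ E, ∃ a s : R, s ≠ 0 ∧ (∀ q ∈ {q | ∃ y ∈ E, q ∈ S.T y} ∪ S.Sig, s ∉ q) ∧
      InJ (S.T y) (k0 + 1) (algebraMap R F a / algebraMap R F s - r y) := by
    intro y hy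
    obtain ⟨a, s, hs, hsq, he⟩ := (hr y hy).frac
    obtain ⟨c, hc, hcP⟩ := hAV R ({q | ∃ y' ∈ E, y' ≠ y ∧ q ∈ S.T y'} ∪ S.Sig)
      ((hTE.subset (by rintro q ⟨y', h1, -, h2⟩; exact ⟨y', h1, h2⟩)).union hSig)
      (by
        rintro q (⟨y', _, _, h2⟩ | h2)
        · exact S.pr y' q h2
        · exact h2.1) s ((sInf (S.T y)) ^ (k0 + 1))
      (by
        rintro q (⟨y', _, h1, h2⟩ | h2)
        · exact pow_sInf_not_le S h1 _ h2
        · exact pow_sInf_not_le_sig S y _ h2)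
    have hq1 : ∀ q ∈ S.T y, s + c ∉ q := by
      intro q hq h
      exact hsq q hq (by simpa using q.sub_mem h (mem_of_mem_pow_sInf hc hq))
    have hs1 : s + c ≠ 0 := by
      intro h0
      obtain ⟨q, hq⟩ := S.ne y
      exact hq1 q hq (h0 ▸ q.zero_mem)
    refine ⟨a, s + c, hs1, ?_, ?_⟩
    · rintro q (⟨y', h1, h2⟩ | h2)
      · by_cases hyy : y' = y
        · subst hyy
          exact hq1 q h2
        · exact hcP q (Or.inl ⟨y', h1, hyy, h2⟩)
      · exact hcP q (Or.inr h2)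
    · have h1 : algebraMap R F s ≠ 0 := by
        rw [Ne, FaithfulSMul.algebraMap_eq_zero_iff]
        exact hs
      have h2 : algebraMap R F (s + c) ≠ 0 := by
        rw [Ne, FaithfulSMul.algebraMap_eq_zero_iff]
        exact hs1
      have h3 : algebraMap R F a / algebraMap R F (s + c) - r y =
          algebraMap R F (-(a * c)) / algebraMap R F (s * (s + c)) := by
        rw [he, map_neg, map_mul, map_mul, div_sub_div _ _ h2 h1, mul_comm (algebraMap R F s),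
          map_add]
        congr 1
        ring
      rw [h3]
      refine inJ_div (mul_ne_zero hs hs1) ?_ ?_
      · intro q hq h
        rcases (S.pr y q hq).mem_or_mem h with h4 | h4
        · exact hsq q hq h4
        · exact hq1 q hq h4
      · exact neg_mem (Ideal.mul_mem_left _ _ hc)
  choose! a s hs0 hsq hJ using step1
  -- step 2
  have step2 : ∀ y ∈ E, ∃ e : R, (∀ y' ∈ E, y' ≠ y → e ∈ (sInf (S.T y')) ^ (k0 + 1)) ∧
      ∀ q ∈ S.T y, e ∉ q := by
    intro y hy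
    obtain ⟨c, hc, hcP⟩ := hAV R (S.T y) (S.fin y) (S.pr y) 0
      (∏ y' ∈ hE.toFinset.erase y, (sInf (S.T y')) ^ (k0 + 1)) (by
        intro q hq h
        obtain ⟨y', hy', hle⟩ := (S.pr y q hq).prod_le.1 h
        exact pow_sInf_not_le S (Finset.ne_of_mem_erase hy').symm _ hq hle)
    refine ⟨c, ?_, fun q hq => by simpa using hcP q hq⟩
    intro y' hy' hne
    have h1 := Ideal.prod_le_inf hc
    have h2 : (hE.toFinset.erase y).inf (fun y' => (sInf (S.T y')) ^ (k0 + 1)) ≤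
        (sInf (S.T y')) ^ (k0 + 1) :=
      Finset.inf_le (f := fun y' => (sInf (S.T y')) ^ (k0 + 1))
        (Finset.mem_erase.2 ⟨hne, hE.mem_toFinset.2 hy'⟩)
    exact h2 h1
  choose! e heJ heq using step2
  -- step 3
  obtain ⟨c, hc, hcP⟩ := hAV R S.Sig hSig S.Sig_prime (∑ y ∈ hE.toFinset, e y)
      (∏ y' ∈ hE.toFinset, (sInf (S.T y')) ^ (k0 + 1)) (by
        intro q hq h
        obtain ⟨y', hy', hle⟩ := hq.1.prod_le.1 h
        exact pow_sInf_not_le_sig S y' _ hq hle)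
  have hcJ : ∀ y ∈ E, c ∈ (sInf (S.T y)) ^ (k0 + 1) := by
    intro y hy
    have h1 := Ideal.prod_le_inf hc
    have h2 : hE.toFinset.inf (fun y' => (sInf (S.T y')) ^ (k0 + 1)) ≤
        (sInf (S.T y)) ^ (k0 + 1) :=
      Finset.inf_le (f := fun y' => (sInf (S.T y')) ^ (k0 + 1)) (hE.mem_toFinset.2 hy)
    exact h2 h1
  obtain ⟨σ, hσ⟩ : ∃ σ, σ = ∑ y ∈ hE.toFinset, e y + c := ⟨_, rfl⟩
  have hσ1 : ∀ y ∈ E, e y - σ ∈ (sInf (S.T y)) ^ (k0 + 1) := by
    intro y hy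
    have h1 := Finset.add_sum_erase hE.toFinset e (hE.mem_toFinset.2 hy)
    have h2 : e y - σ = -(∑ y' ∈ hE.toFinset.erase y, e y' + c) := by
      rw [hσ, ← h1]
      ring
    rw [h2]
    refine neg_mem (add_mem (sum_mem ?_) (hcJ y hy))
    intro y' hy'
    have h3 := Finset.mem_erase.1 hy'
    exact heJ y' (hE.mem_toFinset.1 h3.2) y hy h3.1.symm
  have hσq : ∀ q ∈ {q | ∃ y ∈ E, q ∈ S.T y} ∪ S.Sig, σ ∉ q := by
    rintro q (⟨y, hy, hq⟩ | hq)
    · intro h
      have h1 := mem_of_mem_pow_sInf (hσ1 y hy) hq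
      exact heq y hy q hq (by simpa using q.add_mem h1 h)
    · rw [hσ]
      exact hcP q hq
  rcases E.eq_empty_or_nonempty with hE0 | ⟨y0, hy0⟩
  · refine ⟨1, one_ne_zero, inL_one hallp, ?_⟩
    intro y hy
    rw [hE0] at hy
    exact hy.elim
  have hσ0 : σ ≠ 0 := by
    intro h0
    obtain ⟨q, hq⟩ := S.ne y0
    exact hσq q (Or.inl ⟨y0, hy0, hq⟩) (h0 ▸ q.zero_mem)
  have hσF : algebraMap R F σ ≠ 0 := by
    rw [Ne, FaithfulSMul.algebraMap_eq_zero_iff]
    exact hσ0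
  -- the approximation
  obtain ⟨ρ0, hρ0⟩ : ∃ ρ0 : F, ρ0 = ∑ y ∈ hE.toFinset,
      (algebraMap R F (e y) / algebraMap R F σ) *
        (algebraMap R F (a y) / algebraMap R F (s y)) := ⟨_, rfl⟩
  have hρL : InL ({q | ∃ y ∈ E, q ∈ S.T y} ∪ S.Sig) ρ0 := by
    rw [hρ0]
    refine InL.sum hallp _ ?_
    intro y hy
    have hy' := hE.mem_toFinset.1 hy
    exact (inL_div hσ0 hσq).mul hallp (inL_div (hs0 y hy') (hsq y hy'))
  have hρJ : ∀ y ∈ E, InJ (S.T y) (k0 + 1) (ρ0 - r y) := by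
    intro y hy
    have hT := S.pr y
    have hsplit : ρ0 - r y = ∑ y' ∈ hE.toFinset.erase y,
        (algebraMap R F (e y') / algebraMap R F σ) *
          (algebraMap R F (a y') / algebraMap R F (s y')) +
        (algebraMap R F (e y - σ) / algebraMap R F σ) *
          (algebraMap R F (a y) / algebraMap R F (s y)) +
        (algebraMap R F (a y) / algebraMap R F (s y) - r y) := by
      rw [hρ0, ← Finset.add_sum_erase _ _ (hE.mem_toFinset.2 hy), map_sub, sub_div,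
        div_self hσF]
      ring
    rw [hsplit]
    refine ((inJ_sum hT _ ?_).add hT ?_).add hT (hJ y hy)
    · intro y' hy'
      have h3 := Finset.mem_erase.1 hy'
      have h4 := hE.mem_toFinset.1 h3.2
      rw [mul_comm]
      refine (inJ_div hσ0 (fun q hq => hσq q (Or.inl ⟨y, hy, hq⟩)) ?_).mul_left hT
        (inL_div (hs0 y' h4) fun q hq => hsq y' h4 q (Or.inl ⟨y, hy, hq⟩))
      exact heJ y' h4 y hy h3.1.symm
    · rw [mul_comm]
      exact (inJ_div hσ0 (fun q hq => hσq q (Or.inl ⟨y, hy, hq⟩)) (hσ1 y hy)).mul_left hT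
        (inL_div (hs0 y hy) fun q hq => hsq y hy q (Or.inl ⟨y, hy, hq⟩))
  by_cases h0 : ρ0 = 0
  · refine ⟨algebraMap R F (S.p ^ (k0 + 1)), ?_, inL_alg hallp _, ?_⟩
    · rw [map_pow]
      exact pp_ne S _
    · intro y hy
      have h1 := hρJ y hy
      have h2 : S.p ^ (k0 + 1) ∈ (sInf (S.T y)) ^ (k0 + 1) :=
        Ideal.pow_mem_pow (Ideal.mem_sInf.2 fun {q} hq => S.mem y q hq) _
      have h3 := (inJ_alg (F := F) (S.pr y) h2).add (S.pr y) h1
      rw [h0, zero_sub, ← sub_eq_add_neg] at h3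
      exact h3
  · exact ⟨ρ0, h0, hρL, hρJ⟩

end Pool.Agent.H36.KST
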