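import Pool.Agent.H92.KST.Basic

/-!
# Board kst_modules: row GEN, coprime pairs reduce to COP
-/

set_option autoImplicit false

universe u

namespace Pool.Agent.H36.KST

open Pool.Agent.H92.KST

theorem pf_GEN (hFIN : T_FIN.{u}) (hGDC : T_GDC.{u}) : T_GEN.{u} := by
  intro R F M _ _ _ _ _ _ _ _ S σ L hL u g hu hg hsm hun
  obtain ⟨hF1, hF2, hF3⟩ := hFIN R F
  obtain ⟨hSig, -, -⟩ := hF3 S
  have hBfin : {P ∈ S.Hor | ¬ UnA P u}.Finite := by
    refine (hF2 u hu).subset ?_
    rintro P ⟨hP, hPu⟩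
    exact ⟨hP.1, hP.2.1, hPu⟩
  refine hGDC R F S {P ∈ S.Hor | ¬ UnA P u} hBfin (fun P hP => hP.1) (fun x => σ.s u x ∈ L)
    ?_ ?_ ?_ g hg ?_
  · intro x y hx hy h1 h2
    rw [σ.mul_right u x y hu hx hy]
    exact add_mem h1 h2
  · intro x hx h1
    rw [σ.inv_right hx hu]
    exact neg_mem h1
  · intro x hx hxB hxS
    have hDfin : {P ∈ S.Hor | x ∈ P}.Finite := by
      refine (hF1 x hx).subset ?_
      rintro P ⟨hP, hPx⟩
      exact ⟨hP.1, hP.2.1, hPx⟩
    have hpr : ∀ P ∈ {P ∈ S.Hor | x ∈ P}, P.IsPrime := fun P hP => hP.1.1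
    have hU : ∀ P ∈ {P ∈ S.Hor | x ∈ P}, UnA P u := by
      intro P hP
      by_contra hcon
      exact hxB P ⟨hP.1, hcon⟩ hP.2
    have hal : InL {P ∈ S.Hor | x ∈ P} ((u - 1) / algebraMap R F S.p ^ (S.n + 1)) := by
      refine inL_of_forall hDfin hpr ?_
      intro P hP
      have hPp : P.IsPrime := hpr P hP
      have hs := singleton_prime hPp
      have h1 : InL {P} (u - 1) := (hU P hP).2.1.sub hs (inL_one hs)
      have hpP : S.p ^ (S.n + 1) ∉ P := fun h => hP.1.2.2 (hPp.mem_of_pow_mem _ h)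
      have h2 : InL {P} (algebraMap R F 1 / algebraMap R F (S.p ^ (S.n + 1))) := by
        refine inL_div (pow_ne_zero _ S.p0) ?_
        rintro q rfl
        exact hpP
      rw [div_eq_mul_inv]
      rw [map_one, map_pow, one_div] at h2
      exact h1.mul hs h2
    obtain ⟨a, b, hb, hbq, he⟩ := (inL_union hSig hDfin S.Sig_prime hpr hsm hal).frac
    have hpn := pp_ne (F := F) S (S.n + 1)
    have hue : u = 1 + algebraMap R F S.p ^ (S.n + 1) *
        (algebraMap R F a / algebraMap R F b) := by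
      rw [← he]
      field_simp
      ring
    have hb' : algebraMap R F b ≠ 0 := by
      rw [Ne, FaithfulSMul.algebraMap_eq_zero_iff]
      exact hb
    have hbu : algebraMap R F b * u = algebraMap R F (b + S.p ^ (S.n + 1) * a) := by
      rw [map_add, map_mul, map_pow, hue]
      field_simp
    have hne : b + S.p ^ (S.n + 1) * a ≠ 0 := by
      intro h0
      rw [h0, map_zero] at hbu
      exact mul_ne_zero hb' hu hbu
    have := hL a b x hb (fun e he' => hbq e (Or.inl he')) hx ?_ hxS hne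
    · rwa [← hue] at this
    · intro P hP hPx
      have hPD : P ∈ {P ∈ S.Hor | x ∈ P} := ⟨hP, hPx⟩
      have hbP : b ∉ P := hbq P (Or.inr hPD)
      exact ⟨hbP, not_mem_of_unA_mul hP.1 (hU P hPD) hbP hbu⟩
  · intro P hP
    rcases hun P hP.1 with h | h
    · exact absurd h hP.2
    · exact h

end Pool.Agent.H36.KST
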