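import Pool.Agent.H92.KST.TargetsX

/-!
# Board kst_modules: row SITX, the situation of `T_STAR`
-/

set_option autoImplicit false

universe u

namespace Pool.Agent.H36.KST

open Pool.Agent.H92.KST Pool.Agent.H19.KN

theorem pf_SITX (hGENF : T_GENF.{u}) : T_SITX.{u} := by
  classical
  intro F _ O π q E h n hn
  obtain ⟨hG1, hG2, hG3, hG4, hG5⟩ := hGENF F O π q E h
  have hinj : Function.Injective (algebraMap (integralClosure O F) F) := Subtype.val_injective
  have : FaithfulSMul (integralClosure O F) F := (faithfulSMul_iff_algebraMap_injective _ _).2 hinj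
  have hfr : IsFractionRing (integralClosure O F) F := by
    refine IsFractionRing.of_field _ _ ?_
    intro z
    obtain ⟨a, ha, b, hb, hb0, hz⟩ := h.fr z
    exact ⟨algebraMap O (integralClosure O F) ⟨a, ha⟩,
      algebraMap O (integralClosure O F) ⟨b, hb⟩, hz⟩
  refine ⟨hfr, ?_, ?_⟩
  · rw [isIntegrallyClosed_iff F]
    intro x hx
    exact ⟨⟨x, isIntegral_trans (R := O) (A := integralClosure O F) x hx⟩, rfl⟩
  · refine ⟨{
      p := algebraMap O (integralClosure O F) ⟨π, h.pi_mem⟩
      n := n
      Y := YO O π 2
      T := fun y => Over O y.1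
      p0 := ?_
      pJ := ?_
      n1 := hn
      fin := fun y => (hG5 y.1 y.2.1).1
      ne := fun y => (hG5 y.1 y.2.1).2
      pr := fun y q hq => hq.1
      ht := fun y q hq => hG3 y.1 y.2 q hq
      mem := ?_
      dj := ?_ }, rfl, rfl, Equiv.refl _, fun y => rfl⟩
    · intro h0
      have := congrArg (algebraMap (integralClosure O F) F) h0
      exact h.pi_ne this
    · intro x
      by_contra hnu
      obtain ⟨m, hm, hmem⟩ := exists_max_ideal_of_mem_nonunits
        (show 1 + algebraMap O (integralClosure O F) ⟨π, h.pi_mem⟩ * x ∈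
          nonunits (integralClosure O F) from hnu)
      have hmm : (m.comap (algebraMap O (integralClosure O F))).IsMaximal :=
        Ideal.isMaximal_comap_of_isIntegral_of_isMaximal m
      have hp : (⟨π, h.pi_mem⟩ : O) ∈ m.comap (algebraMap O (integralClosure O F)) := by
        by_contra hp
        obtain ⟨y, i, hi, hyi⟩ := hmm.exists_inv hp
        obtain ⟨b, hb, hb1⟩ := h.jac (-y.1) (O.neg_mem y.2)
        apply hmm.ne_top
        rw [Ideal.eq_top_iff_one]
        have h1 : (1 : O) = ⟨b, hb⟩ * i := by
          apply Subtype.ext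
          have h2 := congrArg Subtype.val hyi
          simp only [Subring.coe_add, Subring.coe_mul, Subring.coe_one] at h2 ⊢
          rw [← hb1]
          linear_combination (-b) * h2
        rw [h1]
        exact Ideal.mul_mem_left _ _ hi
      have h1 : (1 : integralClosure O F) ∈ m := by
        have := m.sub_mem hmem (m.mul_mem_right x (Ideal.mem_comap.1 hp))
        rwa [add_sub_cancel_right] at this
      exact hm.ne_top ((Ideal.eq_top_iff_one m).2 h1)
    · rintro ⟨y, hy⟩ q ⟨hq, hqy⟩
      obtain ⟨h1, h2⟩ := hy.2.1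
      simp only at hqy
      rw [← hqy] at h2
      exact Ideal.mem_comap.1 h2
    · intro y y' hne
      rw [Set.disjoint_left]
      rintro q ⟨hq, hqy⟩ ⟨hq', hqy'⟩
      exact hne (Subtype.ext (hqy.symm.trans hqy'))

end Pool.Agent.H36.KST
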