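import Pool.Agent.H36.KST.CRT

/-!
# Board kst_modules: row WST, a small element at the vertical primes below a point
-/

set_option autoImplicit false

universe u

namespace Pool.Agent.H36.KST

open Pool.Agent.H92.KST

/-- a prime containing an element different from zero, inside a prime of height one -/
theorem eq_of_le_height_one {R : Type u} [CommRing R] [IsDomain R] [IsNoetherianRing R]
    {P Q : Ideal R} (hP : P.IsPrime) (hQ : Q.height = 1) (hne : P ≠ ⊥) (hle : P ≤ Q) : P = Q := by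
  have h1 : P.height ≠ 0 := fun h => hne (Ideal.height_eq_zero_iff_eq_bot.1 h)
  refine Ideal.eq_of_le_of_height_le P hle ?_
  rw [hQ]
  exact Order.one_le_iff_pos.2 (pos_iff_ne_zero.2 h1)

theorem height_one_of_min {R : Type u} [CommRing R] [IsDomain R] [IsNoetherianRing R]
    {P : Ideal R} {x : R} (hx : x ≠ 0) (hP : P ∈ (Ideal.span {x}).minimalPrimes) :
    P.IsPrime ∧ P.height = 1 ∧ x ∈ P := by
  have hPp : P.IsPrime := hP.1.1
  have hxP : x ∈ P := hP.1.2 (Ideal.mem_span_singleton_self x)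
  refine ⟨hPp, le_antisymm ?_ ?_, hxP⟩
  · exact Ideal.height_le_one_of_isPrincipal_of_mem_minimalPrimes (Ideal.span {x}) P hP
  · have h1 : P.height ≠ 0 := by
      intro h
      rw [Ideal.height_eq_zero_iff_eq_bot] at h
      rw [h] at hxP
      exact hx hxP
    exact Order.one_le_iff_pos.2 (pos_iff_ne_zero.2 h1)

theorem pf_WST (hAV : T_AV.{u}) (hRAD : T_RAD.{u}) (hFIN : T_FIN.{u}) : T_WST.{u} := by
  classical
  intro R F _ _ _ _ _ _ _ S y u hu hsm
  obtain ⟨-, -, hF3⟩ := hFIN R F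
  obtain ⟨hSig, -, -⟩ := hF3 S
  have hTp := S.pr y
  have hpF := pp_ne (F := F) S (S.n + 1)
  -- the two sets of vertical primes
  have hSaf : {e ∈ S.Sig | Below (S.T y) e}.Finite := hSig.subset fun e he => he.1
  have hSbf : {e ∈ S.Sig | ¬ Below (S.T y) e}.Finite := hSig.subset fun e he => he.1
  -- the fraction
  obtain ⟨B, b, hb, hub⟩ := IsFractionRing.div_surjective (A := R) u
  have hb0 : b ≠ 0 := nonZeroDivisors.ne_zero hb
  have hbF : algebraMap R F b ≠ 0 := by
    rw [Ne, FaithfulSMul.algebraMap_eq_zero_iff]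
    exact hb0
  have hB0 : B ≠ 0 := by
    rintro rfl
    apply hu
    rw [← hub, map_zero, zero_div]
  have hBF : algebraMap R F B ≠ 0 := by
    rw [Ne, FaithfulSMul.algebraMap_eq_zero_iff]
    exact hB0
  -- step 1
  obtain ⟨t, ht, htP⟩ := hAV R {e ∈ S.Sig | ¬ Below (S.T y) e} hSbf (fun e he => he.1.1) 0
    (sInf {e ∈ S.Sig | Below (S.T y) e}) (by
      intro e' he' h
      obtain ⟨e, he, hle⟩ := sInf_le_prime hSaf he'.1.1 h
      have h1 : e = e' := eq_of_le_height_one he.1.1 he'.1.2.1 (by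
        rintro rfl
        exact S.p0 he.1.2.2) hle
      subst h1
      exact he'.2 he.2)
  simp only [zero_add] at htP
  have htq : ∀ q ∈ S.T y, t ∈ q := by
    intro q hq
    have hqp := hTp q hq
    have h1 : Ideal.span {S.p} ≤ q := (Ideal.span_singleton_le_iff_mem q).2 (S.mem y q hq)
    obtain ⟨P, hP, hle⟩ := Ideal.exists_minimalPrimes_le h1
    obtain ⟨h2, h3, h4⟩ := height_one_of_min S.p0 hP
    exact hle (Ideal.mem_sInf.1 ht (show P ∈ {e ∈ S.Sig | Below (S.T y) e} from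
      ⟨⟨h2, h3, h4⟩, q, hq, hle⟩))
  obtain ⟨K, s, hs0, hsq, hs⟩ := hRAD R (S.T y) (S.fin y) (S.ne y) hTp
    (Ideal.span {S.p ^ (S.n + 1)}) (sInf {e ∈ S.Sig | Below (S.T y) e}) (by
      intro P hP hbel
      obtain ⟨h2, h3, h4⟩ := height_one_of_min (pow_ne_zero _ S.p0) hP
      exact sInf_le ⟨⟨h2, h3, h2.mem_of_pow_mem _ h4⟩, hbel⟩)
  have htK := hs (t ^ (K + 1)) (Ideal.pow_le_pow_right (Nat.le_succ K) (Ideal.pow_mem_pow ht _))
  rw [Ideal.mem_span_singleton] at htK
  obtain ⟨r, hr⟩ := htK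
  have htL : InL (S.T y) (algebraMap R F (t ^ (K + 1)) / algebraMap R F S.p ^ (S.n + 1)) := by
    refine ⟨s, r, hs0, hsq, ?_⟩
    rw [← mul_div_assoc, ← map_mul, hr, map_mul, map_pow, mul_div_cancel_left₀ _ hpF]
  -- step 3
  obtain ⟨z, hz⟩ : ∃ z, z = S.p ^ (S.n + 1) * b * B := ⟨_, rfl⟩
  have hz0 : z ≠ 0 := by
    rw [hz]
    exact mul_ne_zero (mul_ne_zero (pow_ne_zero _ S.p0) hb0) hB0
  have hzF : algebraMap R F z ≠ 0 := by
    rw [Ne, FaithfulSMul.algebraMap_eq_zero_iff]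
    exact hz0
  obtain ⟨K', s', hs'0, hs'q, hs'⟩ : ∃ (k : ℕ) (s : R), s ≠ 0 ∧
      (∀ q ∈ {e ∈ S.Sig | ¬ Below (S.T y) e}, s ∉ q) ∧
      ∀ x ∈ (sInf {e ∈ S.Sig | ¬ Below (S.T y) e}) ^ k, s * x ∈ Ideal.span {z} := by
    rcases ({e ∈ S.Sig | ¬ Below (S.T y) e}).eq_empty_or_nonempty with h0 | hne
    · refine ⟨0, z, hz0, ?_, ?_⟩
      · intro q hq
        rw [h0] at hq
        exact hq.elim
      · intro x _
        exact Ideal.mul_mem_right _ _ (Ideal.mem_span_singleton_self z)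
    · refine hRAD R _ hSbf hne (fun e he => he.1.1) _ _ ?_
      rintro P hP ⟨e', he', hle⟩
      obtain ⟨h2, h3, h4⟩ := height_one_of_min hz0 hP
      have h1 : P = e' := eq_of_le_height_one h2 he'.1.2.1 (by
        rintro rfl
        exact hz0 h4) hle
      subst h1
      exact sInf_le he'
  obtain ⟨c, hc, hcP⟩ := hAV R (S.T y) (S.fin y) hTp 0
    ((sInf {e ∈ S.Sig | ¬ Below (S.T y) e}) ^ (K' + 1)) (by
      intro q hq h
      obtain ⟨e, he, hle⟩ := sInf_le_prime hSbf (hTp q hq) ((hTp q hq).le_of_pow_le h)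
      exact he.2 ⟨q, hq, hle⟩)
  simp only [zero_add] at hcP
  have hcb : ∀ e ∈ {e ∈ S.Sig | ¬ Below (S.T y) e}, c ∈ e := fun e he =>
    mem_of_mem_pow_sInf hc he
  have hcL : InL {e ∈ S.Sig | ¬ Below (S.T y) e} (algebraMap R F c / algebraMap R F z) := by
    have h1 := hs' c (Ideal.pow_le_pow_right (Nat.le_succ K') hc)
    rw [Ideal.mem_span_singleton] at h1
    obtain ⟨r', hr'⟩ := h1
    refine ⟨s', r', hs'0, hs'q, ?_⟩
    rw [← mul_div_assoc, ← map_mul, hr', map_mul, mul_div_cancel_left₀ _ hzF]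
  -- step 4
  obtain ⟨D, hD⟩ : ∃ D, D = t ^ (K + 1) + c := ⟨_, rfl⟩
  have hDq : ∀ q ∈ S.T y, D ∉ q := by
    intro q hq h
    apply hcP q hq
    have h1 : t ^ (K + 1) ∈ q := q.pow_mem_of_mem (htq q hq) _ (by omega)
    have := q.sub_mem h h1
    rwa [hD, add_sub_cancel_left] at this
  have hDe : ∀ e ∈ {e ∈ S.Sig | ¬ Below (S.T y) e}, D ∉ e := by
    intro e he h
    apply htP e he
    have := e.sub_mem h (hcb e he)
    rw [hD, add_sub_cancel_right] at this
    exact he.1.1.mem_of_pow_mem _ this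
  have hD0 : D ≠ 0 := by
    intro h0
    obtain ⟨q, hq⟩ := S.ne y
    exact hDq q hq (h0 ▸ q.zero_mem)
  have hDF : algebraMap R F D ≠ 0 := by
    rw [Ne, FaithfulSMul.algebraMap_eq_zero_iff]
    exact hD0
  -- step 5
  have hN : ∀ x : R, x ≠ 0 → ∃ N : F, Sm S (S.T y) N ∧
      N = 1 + algebraMap R F (t ^ (K + 1)) / algebraMap R F D * (algebraMap R F x - 1) := by
    intro x hx
    refine ⟨_, ?_, rfl⟩
    have h1 : 1 + algebraMap R F (t ^ (K + 1)) / algebraMap R F D * (algebraMap R F x - 1) =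
        1 + algebraMap R F S.p ^ (S.n + 1) *
          (algebraMap R F (t ^ (K + 1)) / algebraMap R F S.p ^ (S.n + 1) *
          (algebraMap R F (x - 1) / algebraMap R F D)) := by
      rw [map_sub, map_one]
      field_simp
    rw [h1]
    have h2 : InL (S.T y) (algebraMap R F (t ^ (K + 1)) / algebraMap R F S.p ^ (S.n + 1) *
          (algebraMap R F (x - 1) / algebraMap R F D)) :=
      htL.mul hTp (inL_div hD0 hDq)
    exact sm_iff.2 ⟨one_add_ne (S.ne y) hTp (S.mem y) h2 (by omega), _, h2, rfl⟩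
  obtain ⟨N1, hN1, hN1e⟩ := hN b hb0
  obtain ⟨N2, hN2, hN2e⟩ := hN B hB0
  have hw := hN1.mul hTp (hN2.inv hTp (S.mem y))
  refine ⟨N1 * N2⁻¹, hw.1, hw.2, ?_⟩
  refine inL_of_forall hSig S.Sig_prime ?_
  intro e he
  have hep := singleton_prime he.1
  have hpe : ∀ q ∈ ({e} : Set (Ideal R)), S.p ∈ q := by
    rintro q rfl
    exact he.2.2
  by_cases hbel : Below (S.T y) e
  · have h1 : Sm S {e} (N1 * N2⁻¹) := hw.mono (by
      rintro q rfl
      exact hbel)
    have h2 : Sm S {e} u := ⟨hu, hsm e he hbel⟩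
    exact (h1.mul hep h2).2
  · have heb : e ∈ {e ∈ S.Sig | ¬ Below (S.T y) e} := ⟨he, hbel⟩
    have hc1 := hcL.single heb
    have key : ∀ (x x' : R) (N : F), x ≠ 0 → x' ≠ 0 → z = S.p ^ (S.n + 1) * x * x' → N ≠ 0 →
        N = 1 + algebraMap R F (t ^ (K + 1)) / algebraMap R F D * (algebraMap R F x - 1) →
        Sm S {e} (N / algebraMap R F x) := by
      intro x x' N hx hx' hzx hN0 hNe
      have hxF : algebraMap R F x ≠ 0 := by
        rw [Ne, FaithfulSMul.algebraMap_eq_zero_iff]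
        exact hx
      have hxF' : algebraMap R F x' ≠ 0 := by
        rw [Ne, FaithfulSMul.algebraMap_eq_zero_iff]
        exact hx'
      have h1 : N / algebraMap R F x = 1 + algebraMap R F S.p ^ (S.n + 1) *
          (algebraMap R F c / algebraMap R F z * (algebraMap R F (x' * (1 - x)) /
            algebraMap R F D)) := by
        have h2 : algebraMap R F (t ^ (K + 1)) = algebraMap R F D - algebraMap R F c := by
          rw [hD, map_add, add_sub_cancel_right]
        rw [hNe, h2, hzx]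
        simp only [map_mul, map_sub, map_one, map_pow]
        field_simp
        ring
      refine sm_iff.2 ⟨div_ne_zero hN0 hxF, _, ?_, h1⟩
      refine hc1.mul hep (inL_div hD0 ?_)
      rintro q rfl
      exact hDe _ heb
    have k1 := key b B N1 hb0 hB0 hz hN1.1 hN1e
    have k2 := key B b N2 hB0 hb0 (by rw [hz]; ring) hN2.1 hN2e
    have k3 := (k1.mul hep (k2.inv hep hpe)).2
    have hN20 := hN2.1
    have e1 : N1 / algebraMap R F b * (N2 / algebraMap R F B)⁻¹ = N1 * N2⁻¹ * u := by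
      rw [← hub]
      field_simp
    rwa [e1] at k3

end Pool.Agent.H36.KST
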